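import Pool.Agent.Lib_helper60.X10.A

/-!
# A point of order ten: second differences, leading coefficients
-/

set_option autoImplicit false
set_option linter.unusedSectionVars false
set_option linter.unusedSimpArgs false
set_option linter.unusedVariables false

namespace Pool.Agent.X10

/-- the order at the point `-sP` of `∏ X i ^ e i` -/
def OO (e : Fin 10 → ℤ) (s : Fin 10) : ℤ := e (s + 1) + e (s - 1) - 2 * e s

lemma OO_shift (e : Fin 10 → ℤ) (h s : Fin 10) : OO (fun i => e (i + h)) s = OO e (s + h) := by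
  show e (s + 1 + h) + e (s - 1 + h) - 2 * e (s + h) = e (s + h + 1) + e (s + h - 1) - 2 * e (s + h)
  rw [show s + 1 + h = s + h + 1 by abel, show s - 1 + h = s + h - 1 by abel]

lemma OO_sum (f : Fin 10 → ℤ) (e : Fin 10 → ℤ) :
    ∑ c, f c * OO e c = ∑ i, e i * (f (i - 1) + f (i + 1) - 2 * f i) := by
  have h2 : ∑ c, f c * OO e c = ∑ c, f c * e (c + 1) + ∑ c, f c * e (c - 1) -
      ∑ c, f c * (2 * e c) := by
    unfold OO
    rw [← Finset.sum_add_distrib, ← Finset.sum_sub_distrib]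
    exact Finset.sum_congr rfl fun c _ => by ring
  have h3 : ∑ c, f c * e (c + 1) = ∑ i, e i * f (i - 1) := by
    rw [← Equiv.sum_comp (Equiv.addRight (1 : Fin 10)) (fun i => e i * f (i - 1))]
    refine Finset.sum_congr rfl fun c _ => ?_
    show _ = e (c + 1) * f (c + 1 - 1)
    rw [add_sub_cancel_right, mul_comm]
  have h4 : ∑ c, f c * e (c - 1) = ∑ i, e i * f (i + 1) := by
    rw [← Equiv.sum_comp (Equiv.subRight (1 : Fin 10)) (fun i => e i * f (i + 1))]
    refine Finset.sum_congr rfl fun c _ => ?_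
    show _ = e (c - 1) * f (c - 1 + 1)
    rw [sub_add_cancel, mul_comm]
  rw [h2, h3, h4, ← Finset.sum_add_distrib, ← Finset.sum_sub_distrib]
  exact Finset.sum_congr rfl fun i _ => by ring

lemma sum_OO (e : Fin 10 → ℤ) : ∑ s, OO e s = 0 := by
  have h := OO_sum (fun _ => 1) e
  simp only [one_mul] at h
  rw [h]
  exact Finset.sum_eq_zero fun i _ => by ring

lemma wt_OO (e : Fin 10 → ℤ) : ∑ s : Fin 10, (s.val : ℤ) * OO e s = 10 * (e 0 - e 9) := by
  rw [sum10]
  show (0 : ℤ) * (e 1 + e 9 - 2 * e 0) + 1 * (e 2 + e 0 - 2 * e 1) + 2 * (e 3 + e 1 - 2 * e 2) +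
    3 * (e 4 + e 2 - 2 * e 3) + 4 * (e 5 + e 3 - 2 * e 4) + 5 * (e 6 + e 4 - 2 * e 5) +
    6 * (e 7 + e 5 - 2 * e 6) + 7 * (e 8 + e 6 - 2 * e 7) + 8 * (e 9 + e 7 - 2 * e 8) +
    9 * (e 0 + e 8 - 2 * e 9) = 10 * (e 0 - e 9)
  ring

/-- a sum of exponents in terms of the divisor -/
lemma nu_gen (v nu : Fin 10 → ℤ) (C : ℤ)
    (h : ∀ i, nu (i - 1) + nu (i + 1) - 2 * nu i = 20 * v i - C) (e : Fin 10 → ℤ) (s : Fin 10) :
    20 * ∑ i, v i * e (i + s) = ∑ c, nu (c - s) * OO e c + C * ∑ i, e i := by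
  have h1 : ∑ c, nu (c - s) * OO e c = ∑ c, nu c * OO (fun i => e (i + s)) c := by
    rw [← Equiv.sum_comp (Equiv.addRight s) (fun c => nu (c - s) * OO e c)]
    refine Finset.sum_congr rfl fun c _ => ?_
    show nu (c + s - s) * OO e (c + s) = nu c * OO (fun i => e (i + s)) c
    rw [add_sub_cancel_right, OO_shift]
  have hs : ∑ i, e (i + s) = ∑ i, e i := Equiv.sum_comp (Equiv.addRight s) e
  rw [h1, OO_sum, ← hs, Finset.mul_sum, Finset.mul_sum, ← Finset.sum_add_distrib]
  refine Finset.sum_congr rfl fun i _ => ?_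
  rw [h]; ring

/-- `2`, `3` and `p` are multiplicatively independent -/
lemma indep3 {k : Type*} [Field k] [CharZero k] {p : ℕ} (hp : p.Prime) (h2 : p ≠ 2) (h3 : p ≠ 3)
    {a b c : ℤ} (h : (2 : k) ^ a * 3 ^ b * (p : k) ^ c = 1) : a = 0 ∧ b = 0 ∧ c = 0 := by
  have h4 : (((2 : ℚ) ^ a * 3 ^ b * (p : ℚ) ^ c : ℚ) : k) = ((1 : ℚ) : k) := by
    push_cast
    exact h
  have h5 : (2 : ℚ) ^ a * 3 ^ b * (p : ℚ) ^ c = 1 := by exact_mod_cast h4
  have f2 : Fact (Nat.Prime 2) := ⟨Nat.prime_two⟩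
  have f3 : Fact (Nat.Prime 3) := ⟨Nat.prime_three⟩
  have fp : Fact p.Prime := ⟨hp⟩
  have z2 : (2 : ℚ) ^ a ≠ 0 := zpow_ne_zero _ (by norm_num)
  have z3 : (3 : ℚ) ^ b ≠ 0 := zpow_ne_zero _ (by norm_num)
  have zp : (p : ℚ) ^ c ≠ 0 := zpow_ne_zero _ (Nat.cast_ne_zero.mpr hp.ne_zero)
  have key : ∀ (q : ℕ) (hq : q.Prime), a * padicValRat q 2 + b * padicValRat q 3 +
      c * padicValRat q (p : ℚ) = 0 := by
    intro q hq
    have fq : Fact q.Prime := ⟨hq⟩
    have h6 := congrArg (padicValRat q) h5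
    rwa [padicValRat.mul (mul_ne_zero z2 z3) zp, padicValRat.mul z2 z3, padicValRat.zpow,
      padicValRat.zpow, padicValRat.zpow, padicValRat.one] at h6
  have val : ∀ (q n : ℕ), q.Prime → n.Prime → q ≠ n → padicValRat q (n : ℚ) = 0 := by
    intro q n hq hn hne
    have fq : Fact q.Prime := ⟨hq⟩
    rw [padicValRat.of_nat, padicValNat.eq_zero_of_not_dvd]
    · rfl
    · intro hd
      exact hne ((Nat.prime_dvd_prime_iff_eq hq hn).mp hd)
  have c2 : ((2 : ℚ)) = ((2 : ℕ) : ℚ) := by norm_num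
  have c3 : ((3 : ℚ)) = ((3 : ℕ) : ℚ) := by norm_num
  refine ⟨?_, ?_, ?_⟩
  · have h6 := key 2 Nat.prime_two
    rw [c3, val 2 3 Nat.prime_two Nat.prime_three (by norm_num), val 2 p Nat.prime_two hp
      (Ne.symm h2), show padicValRat 2 (2 : ℚ) = 1 from padicValRat.self (by norm_num)] at h6
    omega
  · have h6 := key 3 Nat.prime_three
    rw [c2, val 3 2 Nat.prime_three Nat.prime_two (by norm_num), val 3 p Nat.prime_three hp
      (Ne.symm h3), show padicValRat 3 (3 : ℚ) = 1 from padicValRat.self (by norm_num)] at h6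
    omega
  · have h6 := key p hp
    rw [c2, c3, val p 2 hp Nat.prime_two h2, val p 3 hp Nat.prime_three h3,
      show padicValRat p (p : ℚ) = 1 from padicValRat.self hp.one_lt] at h6
    omega

lemma zpow_sum {k : Type*} [Field k] {a : k} (ha : a ≠ 0) (s : Finset (Fin 10))
    (f : Fin 10 → ℤ) : a ^ (∑ i ∈ s, f i) = ∏ i ∈ s, a ^ f i := by
  induction s using Finset.induction_on with
  | empty => simp
  | insert i s hi ih => rw [Finset.sum_insert hi, Finset.prod_insert hi, zpow_add₀ ha, ih]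

/-- the square of a product of leading coefficients -/
lemma prod_sq {k : Type*} [Field k] [CharZero k] {p : ℕ} (hp : p.Prime) {lam : Fin 10 → k}
    {v2 v3 v5 : Fin 10 → ℤ}
    (h : ∀ i, lam i ^ 2 = ((2 : k) ^ v2 i * 3 ^ v3 i * (p : k) ^ v5 i) ^ 2) (n : Fin 10 → ℤ) :
    (∏ i, lam i ^ n i) ^ 2 = (2 : k) ^ (2 * ∑ i, v2 i * n i) * 3 ^ (2 * ∑ i, v3 i * n i) *
      (p : k) ^ (2 * ∑ i, v5 i * n i) := by
  have h2 : (2 : k) ≠ 0 := two_ne_zero
  have h3 : (3 : k) ≠ 0 := three_ne_zero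
  have h5 : (p : k) ≠ 0 := Nat.cast_ne_zero.mpr hp.ne_zero
  rw [← Finset.prod_pow, Finset.mul_sum, Finset.mul_sum, Finset.mul_sum, zpow_sum h2, zpow_sum h3,
    zpow_sum h5, ← Finset.prod_mul_distrib, ← Finset.prod_mul_distrib]
  refine Finset.prod_congr rfl fun i _ => ?_
  have e1 : (lam i ^ n i) ^ 2 = (lam i ^ 2) ^ n i := by
    rw [← zpow_natCast, ← zpow_natCast, ← zpow_mul, ← zpow_mul, mul_comm]
  rw [e1, h i]
  rw [← zpow_natCast, ← zpow_mul, mul_zpow, mul_zpow, ← zpow_mul, ← zpow_mul, ← zpow_mul]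
  congr 1
  · congr 1
    · congr 1; push_cast; ring
    · congr 1; push_cast; ring
  · congr 1; push_cast; ring

/-- the exponents of equal leading coefficients -/
lemma Lc_gen {k : Type*} [Field k] [CharZero k] {p : ℕ} (hp : p.Prime) (hp2 : p ≠ 2) (hp3 : p ≠ 3)
    {lam : Fin 10 → k} {v2 v3 v5 : Fin 10 → ℤ}
    (h : ∀ i, lam i ^ 2 = ((2 : k) ^ v2 i * 3 ^ v3 i * (p : k) ^ v5 i) ^ 2) {c : k}
    {e e' : Fin 10 → ℤ} (h1 : c * ∏ i, lam i ^ e i = 1) (h1' : c * ∏ i, lam i ^ e' i = 1) :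
    ∑ i, v2 i * e i = ∑ i, v2 i * e' i ∧ ∑ i, v3 i * e i = ∑ i, v3 i * e' i ∧
      ∑ i, v5 i * e i = ∑ i, v5 i * e' i := by
  have hc : c ≠ 0 := by
    rintro rfl
    rw [zero_mul] at h1
    exact zero_ne_one h1
  have h2 : (∏ i, lam i ^ e i) = ∏ i, lam i ^ e' i := mul_left_cancel₀ hc (h1.trans h1'.symm)
  have h3 := congrArg (fun z => z ^ 2) h2
  simp only [prod_sq hp h] at h3
  have n2 : (2 : k) ≠ 0 := two_ne_zero
  have n3 : (3 : k) ≠ 0 := three_ne_zero
  have n5 : (p : k) ≠ 0 := Nat.cast_ne_zero.mpr hp.ne_zero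
  have h4 : (2 : k) ^ (2 * (∑ i, v2 i * e i) - 2 * ∑ i, v2 i * e' i) *
      3 ^ (2 * (∑ i, v3 i * e i) - 2 * ∑ i, v3 i * e' i) *
      (p : k) ^ (2 * (∑ i, v5 i * e i) - 2 * ∑ i, v5 i * e' i) = 1 := by
    rw [zpow_sub₀ n2, zpow_sub₀ n3, zpow_sub₀ n5, div_mul_div_comm, div_mul_div_comm, h3,
      div_self (mul_ne_zero (mul_ne_zero (zpow_ne_zero _ n2) (zpow_ne_zero _ n3))
        (zpow_ne_zero _ n5))]
  obtain ⟨a1, a2, a3⟩ := indep3 hp hp2 hp3 h4
  exact ⟨by linarith, by linarith, by linarith⟩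

/-! ### orbits -/

section

variable {F : Type*} [Field F]

open Pool.Agent.KC72 Pool.Agent.TN

lemma orb6_orb {g : List F} (hg : ∀ x ∈ g, x ≠ 0) {f h : Mo} (H : KC72.ev g f + KC72.ev g h = 1)
    (σ : ℕ) : Orb (KC72.ev g f) (KC72.ev g (orb6 f h σ)) := by
  have hf := ev_ne hg f
  have hh := ev_ne hg h
  have e1 : KC72.ev g h = 1 - KC72.ev g f := by linear_combination H
  rw [e1] at hh
  have hh' : KC72.ev g f - 1 ≠ 0 := fun h' => hh (by linear_combination -h')
  unfold Orb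
  rcases σ with _ | _ | _ | _ | _ | σ
  · left; rfl
  · right; left; exact e1
  · right; right; left
    show KC72.ev g f.inv = _
    rw [ev_inv, one_div]
  · right; right; right; left
    show KC72.ev g (h.div f).neg = _
    rw [KC72.ev_neg, ev_div hg, e1]
    field_simp
    ring
  · right; right; right; right; left
    show KC72.ev g h.inv = _
    rw [ev_inv, e1, one_div]
  · right; right; right; right; right
    show KC72.ev g (f.div h).neg = _
    rw [KC72.ev_neg, ev_div hg, e1, eq_div_iff hh', neg_mul, div_mul_eq_mul_div, neg_eq_iff_eq_neg,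
      div_eq_iff hh]
    ring

lemma Orb.compl' {u f : F} (h0 : u ≠ 0) (h1 : u ≠ 1) (h : Orb u f) : Orb u (1 - f) := by
  have a : 1 - u ≠ 0 := sub_ne_zero.mpr (Ne.symm h1)
  have b : u - 1 ≠ 0 := sub_ne_zero.mpr h1
  unfold Orb at h ⊢
  rcases h with h | h | h | h | h | h
  · right; left; rw [h]
  · left; rw [h]; ring
  · right; right; right; left; rw [h]
  · right; right; left; rw [h]; ring
  · right; right; right; right; right; rw [h]; field_simp; ring
  · right; right; right; right; left; rw [h]; field_simp; ring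

lemma Orb.inv' {u f : F} (h0 : u ≠ 0) (h1 : u ≠ 1) (h : Orb u f) : Orb u f⁻¹ := by
  have a : 1 - u ≠ 0 := sub_ne_zero.mpr (Ne.symm h1)
  have b : u - 1 ≠ 0 := sub_ne_zero.mpr h1
  have c : 1 - 1 / u = (u - 1) / u := by field_simp
  unfold Orb at h ⊢
  rcases h with h | h | h | h | h | h
  · right; right; left; rw [h, one_div]
  · right; right; right; right; left; rw [h, one_div]
  · left; rw [h, one_div, inv_inv]
  · right; right; right; right; right; rw [h, c, inv_div]
  · right; left; rw [h, one_div, inv_inv]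
  · right; right; right; left; rw [h, c, inv_div]

/-! ### monomials -/

/-- a power of a monomial -/
def powz (R : Mo) (n : ℤ) : Mo := (R.1 && !(n % 2 == 0), R.2.map (fun v => n * v))

/-- substitution of monomials -/
def trl : List Mo → List ℤ → Mo
  | R :: Rs, n :: l => (powz R n).mul (trl Rs l)
  | _, _ => (false, [])

/-- a monomial with natural exponents -/
def nM (s : Bool) (l : List ℕ) : Mo := (s, l.map Int.ofNat)

lemma ev_powz {g : List F} (hg : ∀ z ∈ g, z ≠ 0) (R : Mo) (n : ℤ) :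
    KC72.ev g (powz R n) = KC72.ev g R ^ n := by
  have h1 : evl g (R.2.map (fun v => n * v)) = evl g R.2 ^ n := by
    generalize R.2 = l
    induction g generalizing l with
    | nil => simp
    | cons e g ih =>
      cases l with
      | nil => simp
      | cons x l =>
        rw [List.map_cons, evl_cons, evl_cons, mul_zpow, ih (fun z hz => hg z (by simp [hz])),
          ← zpow_mul, mul_comm n x]
  unfold powz KC72.ev
  rw [h1, mul_zpow]
  congr 1
  rcases R with ⟨_ | _, l⟩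
  · simp
  · by_cases hn : n % 2 = 0
    · have : Even n := Int.even_iff.mpr hn
      simp [hn, this.neg_one_zpow]
    · have : Odd n := Int.odd_iff.mpr (by omega)
      have hb : (n % 2 == 0) = false := beq_eq_false_iff_ne.mpr hn
      simp [hb, this.neg_one_zpow]

lemma ev_trl {g : List F} (hg : ∀ z ∈ g, z ≠ 0) {Rs : List Mo} {G' : List F}
    (h : List.Forall₂ (fun R z => KC72.ev g R = z) Rs G') (l : List ℤ) :
    KC72.ev g (trl Rs l) = evl G' l := by
  induction h generalizing l with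
  | nil => simp [trl, KC72.ev]
  | cons h1 h2 ih =>
    cases l with
    | nil => simp [trl, KC72.ev]
    | cons n l =>
      show KC72.ev g ((powz _ n).mul (trl _ l)) = _
      rw [ev_mul hg, ev_powz hg, ih, h1, evl_cons]

lemma evl_ofFn {n : ℕ} (g : Fin n → F) (l : List ℤ) :
    evl (List.ofFn g) l = ∏ j : Fin n, g j ^ (l.getD j.val 0) := by
  induction n generalizing l with
  | zero => simp
  | succ n ih =>
    rw [List.ofFn_succ, Fin.prod_univ_succ]
    cases l with
    | nil => simp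
    | cons x l =>
      rw [evl_cons, ih]
      simp

lemma ev_ofFn {n : ℕ} (g : Fin n → F) (s : Bool) (l : List ℤ) : KC72.ev (List.ofFn g) (s, l) =
    (bif s then -1 else 1) * ∏ j : Fin n, g j ^ (l.getD j.val 0) := by
  unfold KC72.ev
  rw [evl_ofFn]

end

end Pool.Agent.X10
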