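import Pool.Agent.Lib_helper60.X10.L
import Pool.Agent.Lib_helper72.KC.C

/-!
# A point of order ten: enumeration of the divisors of the solutions of the unit equation
-/

set_option autoImplicit false
set_option linter.unusedSectionVars false
set_option linter.unusedSimpArgs false
set_option linter.unusedVariables false

namespace Pool.Agent.X10

open Pool.Agent.KC72 Pool.Agent.K9

/-! ### the checks -/

/-- a search tree -/
inductive Tr where
  | lf : Tr
  | nd : ℕ → ℕ → ℕ → Tr → Tr → Tr

/-- search -/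
def Tr.find (n : ℕ) : Tr → Option (ℕ × ℕ)
  | .lf => none
  | .nd k i s l r => bif Nat.ble k n then (bif Nat.ble n k then some (i, s) else r.find n)
      else l.find n

/-- the data -/
structure Dt where
  tab : Tr
  cls : List (Mo × Mo)
  dcl : List (List ℤ × List ℤ)
  orow : List (List ℤ)
  RW : List (List (List ℤ))
  VW : List (List (List ℤ))

/-- the divisor of a monomial -/
def divl (d : Dt) (ex : List ℤ) : List ℤ := d.orow.map (fun r => dot r ex)

/-- the divisors of the orbit -/
def orbD (a b : List ℤ) : ℕ → List ℤ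
  | 0 => a
  | 1 => b
  | 2 => a.map (fun x => -x)
  | 3 => axpy (-1) a b
  | 4 => b.map (fun x => -x)
  | _ => axpy (-1) b a

lemma dot_neg (r l : List ℤ) : dot r (l.map (fun x => -x)) = - dot r l := by
  induction r generalizing l with
  | nil => simp [dot]
  | cons a r ih =>
    cases l with
    | nil => simp [dot]
    | cons x l =>
      show a * -x + dot r (l.map (fun x => -x)) = -(a * x + dot r l)
      rw [ih]; ring

lemma dot_axpy (c : ℤ) (r b a : List ℤ) : dot r (axpy c b a) = c * dot r b + dot r a := by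
  induction b generalizing r a with
  | nil => cases r <;> simp [axpy, dot]
  | cons x b ih =>
    cases r with
    | nil => simp [dot]
    | cons z r =>
      cases a with
      | nil =>
        show z * (c * x) + dot r (axpy c b []) = c * (z * x + dot r b) + dot (z :: r) []
        rw [ih]
        have : ∀ r : List ℤ, dot r [] = 0 := fun r => by cases r <;> rfl
        rw [this, this]; ring
      | cons y a =>
        show z * (c * x + y) + dot r (axpy c b a) = c * (z * x + dot r b) + (z * y + dot r a)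
        rw [ih]; ring

lemma axpy_map (c : ℤ) (L : List (List ℤ)) (f g : List ℤ → ℤ) :
    axpy c (L.map f) (L.map g) = L.map (fun r => c * f r + g r) := by
  induction L with
  | nil => rfl
  | cons a L ih => rw [List.map_cons, List.map_cons, List.map_cons, axpy, ih]

lemma divl_axpy (d : Dt) (c : ℤ) (b a : List ℤ) :
    divl d (axpy c b a) = axpy c (divl d b) (divl d a) := by
  unfold divl
  rw [axpy_map]
  simp only [dot_axpy]

lemma divl_neg (d : Dt) (a : List ℤ) :
    divl d (a.map (fun x => -x)) = (divl d a).map (fun x => -x) := by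
  unfold divl
  rw [List.map_map]
  refine List.map_congr_left fun r _ => ?_
  rw [dot_neg]; rfl

lemma divl_orb6 (d : Dt) (f h : Mo) (s : ℕ) :
    divl d (orb6 f h s).2 = orbD (divl d f.2) (divl d h.2) s := by
  rcases s with _ | _ | _ | _ | _ | s
  · rfl
  · rfl
  · exact divl_neg d f.2
  · exact divl_axpy d (-1) f.2 h.2
  · exact divl_neg d h.2
  · exact divl_axpy d (-1) h.2 f.2

/-- comparison -/
def leq : List ℤ → List ℤ → Bool
  | [], [] => true
  | Int.ofNat a :: l, Int.ofNat b :: m => Nat.beq a b && leq l m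
  | Int.negSucc a :: l, Int.negSucc b :: m => Nat.beq a b && leq l m
  | _, _ => false

lemma leq_spec {l m : List ℤ} (h : leq l m = true) : l = m := by
  induction l generalizing m with
  | nil =>
    cases m with
    | nil => rfl
    | cons b m => unfold leq at h; exact absurd h (by simp)
  | cons a l ih =>
    cases m with
    | nil => unfold leq at h; exact absurd h (by simp)
    | cons b m =>
      rcases a with a | a <;> rcases b with b | b
      · unfold leq at h
        rw [Bool.and_eq_true] at h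
        rw [Nat.eq_of_beq_eq_true h.1, ih h.2]
      · unfold leq at h; exact absurd h (by simp)
      · unfold leq at h; exact absurd h (by simp)
      · unfold leq at h
        rw [Bool.and_eq_true] at h
        rw [Nat.eq_of_beq_eq_true h.1, ih h.2]

/-- the code of a list -/
def code1 : List ℤ → ℕ
  | a :: l => (a + 8).toNat + 16 * code1 l
  | [] => 0

/-- look up -/
def look (d : Dt) (D D' : List ℤ) : Bool :=
  match d.tab.find (code1 (D ++ D')) with
  | some e => Nat.ble (Nat.succ e.1) d.dcl.length && (Nat.ble e.2 5 &&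
      (leq (orbD (d.dcl.getD e.1 default).1 (d.dcl.getD e.1 default).2 e.2) D &&
        leq (orbD (d.dcl.getD e.1 default).1 (d.dcl.getD e.1 default).2 (cm6 e.2)) D'))
  | none => false

/-- the divisors are those of a class -/
def InT (d : Dt) (D D' : List ℤ) : Prop := ∃ p : ℕ × ℕ, p.1 < d.cls.length ∧
    p.2 < 6 ∧ divl d (oo d.cls p).2 = D ∧ divl d (co d.cls p).2 = D'

/-- the table of the divisors is correct -/
def DcOk (d : Dt) : Prop := d.dcl = d.cls.map (fun c => (divl d c.1.2, divl d c.2.2))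

/-- the check of the divisors of one class -/
def dck (d : Dt) (i : ℕ) : Bool :=
  leq (d.dcl.getD i default).1 (divl d (d.cls.getD i default).1.2) &&
    leq (d.dcl.getD i default).2 (divl d (d.cls.getD i default).2.2)

lemma dc_of {d : Dt} {n : ℕ} (h1 : d.dcl.length = n) (h2 : d.cls.length = n)
    (h : ∀ i < n, dck d i = true) : DcOk d := by
  unfold DcOk
  refine List.ext_getElem (by rw [List.length_map, h1, h2]) ?_
  intro i hi hi'
  have h3 := h i (by rw [← h1]; exact hi)
  have h5 : i < d.cls.length := by rw [h2, ← h1]; exact hi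
  unfold dck at h3
  rw [Bool.and_eq_true, List.getD_eq_getElem _ _ hi, List.getD_eq_getElem _ _ h5] at h3
  rw [List.getElem_map]
  exact Prod.ext (leq_spec h3.1) (leq_spec h3.2)

lemma all_of {P : ℕ → Bool} {i a n : ℕ} (h : (List.range n).all (fun j => P (a + j)) = true)
    (h1 : a ≤ i) (h2 : i < a + n) : P i = true := by
  have := List.all_eq_true.mp h (i - a) (List.mem_range.mpr (by omega))
  rwa [Nat.add_sub_cancel' h1] at this

lemma look_spec {d : Dt} (hd : DcOk d) {D D' : List ℤ} (h : look d D D' = true) :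
    InT d D D' := by
  have hl : d.dcl.length = d.cls.length := by rw [hd, List.length_map]
  unfold look at h
  split at h
  · rename_i e he
    rw [Bool.and_eq_true, Bool.and_eq_true, Bool.and_eq_true, Nat.ble_eq, Nat.ble_eq] at h
    obtain ⟨h1, h2, h3, h4⟩ := h
    have h5 : e.1 < d.cls.length := by rw [← hl]; exact h1
    have h6 : e.1 < d.dcl.length := h1
    have h7 : d.dcl.getD e.1 default = (divl d (d.cls.getD e.1 default).1.2,
        divl d (d.cls.getD e.1 default).2.2) := by
      have h8 : ∀ L : List (List ℤ × List ℤ),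
          L = d.cls.map (fun c => (divl d c.1.2, divl d c.2.2)) →
          L.getD e.1 default = (divl d (d.cls.getD e.1 default).1.2,
            divl d (d.cls.getD e.1 default).2.2) := by
        intro L hL
        subst hL
        rw [List.getD_eq_getElem _ _ (by rw [List.length_map]; exact h5), List.getElem_map,
          List.getD_eq_getElem _ _ h5]
      exact h8 _ hd
    rw [h7] at h3 h4
    refine ⟨e, h5, Nat.lt_succ_of_le h2, ?_, ?_⟩
    · rw [← leq_spec h3]
      exact divl_orb6 d _ _ _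
    · rw [← leq_spec h4]
      exact divl_orb6 d _ _ _
  · exact absurd h (by decide)

/-- rotation -/
def rot : List ℤ → List ℤ
  | [] => []
  | a :: l => l ++ [a]

/-- look up all rotations -/
def lk (d : Dt) : ℕ → List ℤ → List ℤ → Bool
  | 0, _, _ => true
  | j + 1, D, D' => look d D D' && lk d j (rot D) (rot D')

lemma lk_spec {d : Dt} (n : ℕ) : ∀ {D D' : List ℤ},
    lk d n D D' = true → ∀ j < n, look d (rot^[j] D) (rot^[j] D') = true := by
  induction n with
  | zero => intro D D' _ j hj; omega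
  | succ n ih =>
    intro D D' h j hj
    unfold lk at h
    rw [Bool.and_eq_true] at h
    rcases j with _ | j
    · exact h.1
    · rw [Function.iterate_succ_apply, Function.iterate_succ_apply]
      exact ih h.2 j (by omega)

/-- the weight condition -/
def wtc (l : List ℤ) : Bool := dot [0, 1, 2, 3, 4, 5, 6, 7, 8, 9] l % 10 == 0

/-- the divisor of `f` from the divisor of `1 - f` and the zeros of `f` -/
def mkD : List ℤ → List ℤ → List ℤ
  | a :: as, v :: vs => (if v < 0 then v else a) :: mkD as vs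
  | _, _ => []

/-- a unit vector -/
def un (s : Fin 10) : List ℤ := (List.finRange 10).map (fun i => if i = s then 1 else 0)

/-- a fibre with multiplicities and the levels of the enumeration -/
structure Cfg where
  pts : List (Fin 10 × ℕ)
  lv : List (Bool × List (List ℤ × List ℤ))

/-- the linear forms vanishing on the divisor of `1 - f` -/
def rowsC (d : Dt) (pts : List (Fin 10 × ℕ)) : List (List ℤ) :=
  pts.map (fun p => un p.1) ++ ([1, 1, 1, 1, 1, 1, 1, 1, 1, 1] ::
    pts.flatMap (fun p => (bif p.1 == 0 then [] else d.VW.getD p.1.val []) ++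
      (d.RW.getD p.1.val []).take (p.2 - 1)))

/-- the levels are correct -/
def lvok (pts : List (Fin 10 × ℕ)) (rows : List (List ℤ)) :
    List (Bool × List (List ℤ × List ℤ)) → Bool
  | [] => true
  | (b, rs) :: ms => (!b || pts.any (fun p => p.1.val == ms.length)) &&
      (rs.all (fun r => List.replicate ms.length 0 ++ r.1 == lcomb r.2 rows) &&
      lvok pts rows ms)

/-- the levels for the enumeration -/
def lvE (c : Cfg) : List (Bool × List (List ℤ)) := c.lv.map (fun b => (b.1, b.2.map Prod.fst))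

/-- the zeros of `f` -/
def fz (pts : List (Fin 10 × ℕ)) : List ℤ := (List.finRange 10).map (fun s =>
  match pts.find? (fun p => p.1 == s) with
  | some p => Int.ofNat p.2
  | none => 0)

/-- the divisors do not satisfy the conditions at the zeros of `1 - f` -/
def ref (d : Dt) (D l : List ℤ) : Bool :=
  (List.finRange 10).any (fun s =>
    ((d.RW.getD s.val []).take ((l.getD s.val 0).toNat - 1)).any (fun r => !(dot r D == 0))) ||
  (List.finRange 10).any (fun s => (List.finRange 10).any (fun s' =>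
    decide (1 ≤ l.getD s.val 0) && (decide (1 ≤ l.getD s'.val 0) &&
      ((d.VW.getD s.val []).zip (d.VW.getD s'.val [])).any
        (fun r => !(dot r.1 D == dot r.2 D)))))

/-- the check of a vector -/
def chkE (d : Dt) (f : List ℤ) (l : List ℤ) : Bool :=
  !(wtc l) || (!(wtc (mkD f l)) || (lk d 10 (mkD f l) l || ref d (mkD f l) l))

/-- the check of a fibre -/
def okE (d : Dt) (c : Cfg) : Bool := (c.lv.length == 10) && (lvok c.pts (rowsC d c.pts) c.lv &&
  enS (chkE d (fz c.pts)) (lvE c) (pos (fz c.pts)) (pos (fz c.pts)) [])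

/-- the levels force the vector to vanish -/
def zall : List (Bool × List (List ℤ)) → Bool
  | [] => true
  | (b, rs) :: ms => (b || rs.any (fun r => !(r.headD 0 == 0))) && zall ms

/-- the check of a fibre without solutions -/
def okZ (d : Dt) (c : Cfg) : Bool := (c.lv.length == 10) &&
  (lvok c.pts (rowsC d c.pts) c.lv && zall (lvE c))

/-- comparison of multiplicities -/
def leP : List (Fin 10 × ℕ) → List (Fin 10 × ℕ) → Bool
  | [], [] => true
  | p :: l, q :: m => (p.1 == q.1) && (decide (p.2 ≤ q.2) && leP l m)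
  | _, _ => false

/-- all fibres are covered -/
def cov (E Z : List Cfg) (a : List (Fin 10 × ℕ)) : Bool :=
  E.any (fun c => c.pts == a) || Z.any (fun c => leP c.pts a)

/-- lists of multiplicities between one and eleven -/
def prods : ℕ → List (List ℕ)
  | 0 => [[]]
  | k + 1 => [1, 2, 3, 4, 5, 6, 7, 8, 9, 10, 11].flatMap (fun a => (prods k).map (fun l => a :: l))

/-- `okZ` needs positive multiplicities -/
def posP (Z : List Cfg) : Bool := Z.all (fun c => c.pts.all (fun p => decide (1 ≤ p.2)))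

/-- all checks for one type of fibre -/
structure Typ (d : Dt) (T : List (Fin 10)) (E Z : List Cfg) : Prop where
  okE : E.all (okE d) = true
  okZ : Z.all (okZ d) = true
  cov : (prods T.length).all (fun a => cov E Z (T.zip a)) = true
  pos : posP Z = true

/-! ### soundness -/

/-- the orders of the basis `1, x, y, x², xy, .., x⁵, x⁴y` -/
def ordm : Fin 11 → ℤ := ![0, 2, 3, 4, 5, 6, 7, 8, 9, 10, 11]

/-- `g'/g` vanishes to order `a - 1` at `-sP` -/
def VanAt (kap : Fin 11 → Fin 10 → ℤ) (D : Fin 10 → ℤ) (s : Fin 10) (a : ℤ) : Prop :=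
  ∀ m : Fin 11, 11 - a < ordm m → ∑ c, kap m c * D (c + s) = 0

/-- the conditions on the divisors of `f`, `1 - f` -/
structure Shp (kap : Fin 11 → Fin 10 → ℤ) (nus : List (Fin 10 → ℤ)) (D D' : Fin 10 → ℤ) :
    Prop where
  alt : ∀ s, (D s = 0 ∧ D' s = 0) ∨ (1 ≤ D s ∧ D' s = 0) ∨ (D s = 0 ∧ 1 ≤ D' s) ∨
    (D s = D' s ∧ D s ≤ -1)
  s0 : ∑ s, D s = 0
  s1 : ∑ s, D' s = 0
  w0 : (∑ s : Fin 10, (s.val : ℤ) * D s) % 10 = 0
  w1 : (∑ s : Fin 10, (s.val : ℤ) * D' s) % 10 = 0
  van : ∀ s, 1 ≤ D s → D s ≤ 11 ∧ VanAt kap D' s (D s)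
  lv : ∀ s s', 1 ≤ D s → 1 ≤ D s' → ∀ nu ∈ nus,
    ∑ c, nu (c - s) * D' c = ∑ c, nu (c - s') * D' c

/-- the list of values -/
def tl (D : Fin 10 → ℤ) : List ℤ := [D 0, D 1, D 2, D 3, D 4, D 5, D 6, D 7, D 8, D 9]

lemma tl_len (D : Fin 10 → ℤ) : (tl D).length = 10 := rfl

lemma tl_getD (D : Fin 10 → ℤ) (s : Fin 10) : (tl D).getD s.val 0 = D s := by
  fin_cases s <;> rfl

lemma tl_inj {D D' : Fin 10 → ℤ} (h : tl D = tl D') (s : Fin 10) : D s = D' s := by
  rw [← tl_getD D, h, tl_getD]

lemma sum10 {M : Type*} [AddCommMonoid M] (f : Fin 10 → M) :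
    ∑ i, f i = f 0 + f 1 + f 2 + f 3 + f 4 + f 5 + f 6 + f 7 + f 8 + f 9 := by
  rw [Fin.sum_univ_castSucc, Fin.sum_univ_castSucc, Fin.sum_univ_eight]
  rfl

lemma dot_tl (f D : Fin 10 → ℤ) : dot (tl f) (tl D) = ∑ c, f c * D c := by
  rw [sum10]
  show f 0 * D 0 + (f 1 * D 1 + (f 2 * D 2 + (f 3 * D 3 + (f 4 * D 4 + (f 5 * D 5 +
    (f 6 * D 6 + (f 7 * D 7 + (f 8 * D 8 + (f 9 * D 9 + 0))))))))) = _
  ring

lemma pos_tl (D : Fin 10 → ℤ) : K9.pos (tl D) = ∑ s, (D s).toNat := by
  rw [sum10]
  show (D 0).toNat + ((D 1).toNat + ((D 2).toNat + ((D 3).toNat + ((D 4).toNat + ((D 5).toNat +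
    ((D 6).toNat + ((D 7).toNat + ((D 8).toNat + ((D 9).toNat + 0))))))))) = _
  ring

lemma neg_tl (D : Fin 10 → ℤ) : K9.neg (tl D) = ∑ s, (-(D s)).toNat := by
  rw [sum10]
  show (-(D 0)).toNat + ((-(D 1)).toNat + ((-(D 2)).toNat + ((-(D 3)).toNat + ((-(D 4)).toNat +
    ((-(D 5)).toNat + ((-(D 6)).toNat + ((-(D 7)).toNat + ((-(D 8)).toNat +
    ((-(D 9)).toNat + 0))))))))) = _
  ring

/-- the row of a linear form -/
def rowOf (kap : Fin 11 → Fin 10 → ℤ) (s : Fin 10) (m : Fin 11) : List ℤ :=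
  tl (fun c => kap m (c - s))

lemma kz_row (kap : Fin 11 → Fin 10 → ℤ) (m : Fin 11) (s : Fin 10) (D : Fin 10 → ℤ) :
    ∑ c, kap m c * D (c + s) = dot (rowOf kap s m) (tl D) := by
  unfold rowOf
  rw [dot_tl]
  rw [← Equiv.sum_comp (Equiv.addRight s) (fun c => kap m (c - s) * D c)]
  refine Finset.sum_congr rfl fun c _ => ?_
  show _ = kap m (c + s - s) * D (c + s)
  rw [add_sub_cancel_right]

/-- the lists of rows are correct -/
structure DOk (d : Dt) (kap : Fin 11 → Fin 10 → ℤ) (nus : List (Fin 10 → ℤ)) : Prop where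
  dc_ok : DcOk d
  rw_eq : ∀ s : Fin 10, d.RW.getD s.val [] =
    ([9, 8, 7, 6, 5, 4, 3, 2, 1] : List (Fin 11)).map (rowOf kap s)
  vw_eq : ∀ s : Fin 10, d.VW.getD s.val [] = nus.map (fun nu => tl (fun c => nu (c - s) - nu c))

lemma un_eq (s : Fin 10) : un s = tl (fun i => if i = s then 1 else 0) := by
  fin_cases s <;> rfl

lemma ord_take : ∀ a : Fin 12, ∀ m ∈ ([9, 8, 7, 6, 5, 4, 3, 2, 1] : List (Fin 11)).take
    (a.val - 1), (11 : ℤ) - (a.val : ℤ) < ordm m := by decide +kernel

section

variable {d : Dt} {kap : Fin 11 → Fin 10 → ℤ} {nus : List (Fin 10 → ℤ)}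

lemma rw_zero (hd : DOk d kap nus) {D D' : Fin 10 → ℤ} (H : Shp kap nus D D') {s : Fin 10}
    {a : ℕ} (ha : (a : ℤ) ≤ D s) (hs : 1 ≤ D s) :
    ∀ r ∈ (d.RW.getD s.val []).take (a - 1), dot r (tl D') = 0 := by
  intro r hr
  rw [hd.rw_eq, ← List.map_take, List.mem_map] at hr
  obtain ⟨m, hm, rfl⟩ := hr
  rw [← kz_row]
  have h2 := H.van s hs
  have h3 := ord_take ⟨a, by omega⟩ m hm
  exact h2.2 m (by simp only at h3; omega)

lemma vw_zero (hd : DOk d kap nus) {D D' : Fin 10 → ℤ} (H : Shp kap nus D D') {s s' : Fin 10}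
    (hs : 1 ≤ D s) (hs' : 1 ≤ D s') :
    ∀ r ∈ (d.VW.getD s.val []).zip (d.VW.getD s'.val []), dot r.1 (tl D') = dot r.2 (tl D') := by
  intro r hr
  rw [hd.vw_eq, hd.vw_eq, List.zip_map', List.mem_map] at hr
  obtain ⟨nu, hn, rfl⟩ := hr
  dsimp only
  rw [dot_tl, dot_tl]
  simp only [sub_mul, Finset.sum_sub_distrib]
  rw [H.lv s s' hs hs' nu hn]

lemma rows_zero (hd : DOk d kap nus) {D D' : Fin 10 → ℤ} (H : Shp kap nus D D')
    {pts : List (Fin 10 × ℕ)} (hp : ∀ p ∈ pts, 1 ≤ p.2 ∧ (p.2 : ℤ) ≤ D p.1) (h0 : 1 ≤ D 0) :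
    ∀ r ∈ rowsC d pts, dot r (tl D') = 0 := by
  intro r hr
  unfold rowsC at hr
  rw [List.mem_append, List.mem_map, List.mem_cons, List.mem_flatMap] at hr
  rcases hr with ⟨p, hp', rfl⟩ | rfl | ⟨p, hp', hr⟩
  · rw [un_eq, dot_tl]
    simp only [ite_mul, one_mul, zero_mul, Finset.sum_ite_eq', Finset.mem_univ, if_true]
    have h1 := hp p hp'
    rcases H.alt p.1 with h | h | h | h <;> omega
  · have := H.s1
    rw [sum10] at this
    show 1 * D' 0 + (1 * D' 1 + (1 * D' 2 + (1 * D' 3 + (1 * D' 4 + (1 * D' 5 +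
      (1 * D' 6 + (1 * D' 7 + (1 * D' 8 + (1 * D' 9 + 0))))))))) = 0
    linarith
  · have h1 := hp p hp'
    rw [List.mem_append] at hr
    rcases hr with hr | hr
    · by_cases hz : p.1 = 0
      · rw [hz] at hr
        exact absurd hr (by simp)
      · have hb : (p.1 == 0) = false := beq_eq_false_iff_ne.mpr hz
        rw [hb, cond_false, hd.vw_eq, List.mem_map] at hr
        obtain ⟨nu, hn, rfl⟩ := hr
        have h2 := H.lv p.1 0 (by omega) h0 nu hn
        simp only [sub_zero] at h2
        rw [dot_tl]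
        simp only [sub_mul, Finset.sum_sub_distrib, h2, sub_self]
    · exact rw_zero hd H h1.2 (by omega) r hr

lemma lev_of {w : List ℤ} {pts : List (Fin 10 × ℕ)} {rows : List (List ℤ)}
    (hw : ∀ p ∈ pts, w.getD p.1.val 0 = 0) (hr : ∀ r ∈ rows, dot r w = 0)
    (lv : List (Bool × List (List ℤ × List ℤ))) (h : lvok pts rows lv = true) :
    Lev w (lv.map (fun b => (b.1, b.2.map Prod.fst))) := by
  induction lv with
  | nil => trivial
  | cons b ms ih =>
    obtain ⟨b, rs⟩ := b
    unfold lvok at h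
    rw [Bool.and_eq_true, Bool.and_eq_true, List.all_eq_true] at h
    obtain ⟨h1, h2, h3⟩ := h
    refine ⟨fun hb => ?_, ?_, ih h3⟩
    · rw [List.length_map]
      have hb' : b = true := hb
      rw [hb'] at h1
      simp only [Bool.not_true, Bool.false_or, List.any_eq_true, beq_iff_eq] at h1
      obtain ⟨p, hp, hp'⟩ := h1
      rw [← hp']
      exact hw p hp
    · intro r hr'
      rw [List.length_map]
      rw [List.mem_map] at hr'
      obtain ⟨q, hq, rfl⟩ := hr'
      have := h2 q hq
      rw [beq_iff_eq] at this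
      rw [this]
      exact dot_lcomb _ _ _ hr

lemma dot_zero (r l : List ℤ) (h : ∀ x ∈ l, x = 0) : dot r l = 0 := by
  induction r generalizing l with
  | nil => simp [dot]
  | cons a r ih =>
    cases l with
    | nil => simp [dot]
    | cons x l =>
      show a * x + dot r l = 0
      rw [h x (by simp), ih l (fun y hy => h y (by simp [hy]))]
      ring

lemma zero_of_lev (w : List ℤ) (ms : List (Bool × List (List ℤ))) (hl : ms.length ≤ w.length)
    (h : Lev w ms) (hz : zall ms = true) (h0 : ∀ x ∈ w.drop ms.length, x = 0) :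
    ∀ x ∈ w, x = 0 := by
  induction ms with
  | nil => simpa using h0
  | cons b ms ih =>
    obtain ⟨b, rs⟩ := b
    obtain ⟨h1, h2, h3⟩ := h
    unfold zall at hz
    rw [Bool.and_eq_true, Bool.or_eq_true] at hz
    rw [List.length_cons] at hl h0
    have hlt : ms.length < w.length := by omega
    refine ih (by omega) h3 hz.2 ?_
    have e2 : w.drop ms.length = w[ms.length] :: w.drop (ms.length + 1) :=
      List.drop_eq_getElem_cons hlt
    have key : w[ms.length] = 0 := by
      rcases hz.1 with hb | hr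
      · have := h1 hb
        rwa [List.getD_eq_getElem _ _ hlt] at this
      · rw [List.any_eq_true] at hr
        obtain ⟨r, hr, ha⟩ := hr
        have h4 := h2 r hr
        rw [← dot_drop, e2] at h4
        cases r with
        | nil => simp at ha
        | cons a r =>
          have h5 : a * w[ms.length] + dot r (w.drop (ms.length + 1)) = 0 := h4
          rw [dot_zero r _ h0, add_zero] at h5
          simp only [List.headD_cons, Bool.not_eq_true', beq_eq_false_iff_ne, ne_eq] at ha
          exact (mul_eq_zero.mp h5).resolve_left ha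
    intro x hx
    rw [e2, List.mem_cons] at hx
    rcases hx with rfl | hx
    · exact key
    · exact h0 x hx

lemma mkD_tl (f D D' : Fin 10 → ℤ) (h : ∀ s, (if D' s < 0 then D' s else f s) = D s) :
    mkD (tl f) (tl D') = tl D := by
  show [if D' 0 < 0 then D' 0 else f 0, if D' 1 < 0 then D' 1 else f 1,
    if D' 2 < 0 then D' 2 else f 2, if D' 3 < 0 then D' 3 else f 3,
    if D' 4 < 0 then D' 4 else f 4, if D' 5 < 0 then D' 5 else f 5,
    if D' 6 < 0 then D' 6 else f 6, if D' 7 < 0 then D' 7 else f 7,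
    if D' 8 < 0 then D' 8 else f 8, if D' 9 < 0 then D' 9 else f 9] = _
  simp only [h]
  rfl

lemma wtc_of {D : Fin 10 → ℤ} (h : (∑ s : Fin 10, (s.val : ℤ) * D s) % 10 = 0) :
    wtc (tl D) = true := by
  rw [← dot_tl (fun s : Fin 10 => (s.val : ℤ)) D] at h
  unfold wtc
  rw [beq_iff_eq]
  exact h

lemma fz_eq {D : Fin 10 → ℤ} {pts : List (Fin 10 × ℕ)}
    (hp : ∀ p ∈ pts, 1 ≤ p.2 ∧ (p.2 : ℤ) = D p.1) (hA : ∀ s, 1 ≤ D s → ∃ p ∈ pts, p.1 = s) :
    fz pts = tl (fun s => if 1 ≤ D s then D s else 0) := by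
  have key : ∀ s : Fin 10, (match pts.find? (fun p => p.1 == s) with
      | some p => Int.ofNat p.2
      | none => (0 : ℤ)) = if 1 ≤ D s then D s else 0 := by
    intro s
    split
    · rename_i p hf
      have h1 := List.mem_of_find?_eq_some hf
      have h2 := List.find?_some hf
      rw [beq_iff_eq] at h2
      obtain ⟨h3, h4⟩ := hp p h1
      rw [← h2, if_pos (by omega), ← h4]
      rfl
    · rename_i hf
      rw [List.find?_eq_none] at hf
      rw [if_neg]
      intro h1
      obtain ⟨p, hp1, hp2⟩ := hA s h1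
      exact hf p hp1 (by rw [hp2]; simp)
  unfold fz
  exact (List.map_congr_left fun s _ => key s).trans rfl

/-- the positive and negative parts of the divisor of `1 - f` -/
lemma parts {D D' : Fin 10 → ℤ} (H : Shp kap nus D D') :
    K9.pos (tl D') = K9.pos (tl fun s => if 1 ≤ D s then D s else 0) ∧
    K9.neg (tl D') = K9.pos (tl fun s => if 1 ≤ D s then D s else 0) := by
  have key : ∀ s, ((D' s).toNat : ℤ) = D' s - D s + (if 1 ≤ D s then D s else 0) ∧
      ((-(D' s)).toNat : ℤ) = - D s + (if 1 ≤ D s then D s else 0) ∧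
      (((if 1 ≤ D s then D s else 0).toNat : ℕ) : ℤ) = (if 1 ≤ D s then D s else 0) := by
    intro s
    rcases H.alt s with ⟨h1, h2⟩ | ⟨h1, h2⟩ | ⟨h1, h2⟩ | ⟨h1, h2⟩
    · rw [h1, h2]; simp
    · rw [if_pos h1, h2]; simp; omega
    · rw [h1, if_neg (by norm_num)]; omega
    · rw [if_neg (by omega)]; omega
  have e0 := H.s0
  have e1 := H.s1
  rw [pos_tl, neg_tl, pos_tl]
  constructor
  · zify
    simp only [(key _).1, (key _).2.2, Finset.sum_add_distrib, Finset.sum_sub_distrib, e0, e1]
    ring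
  · zify
    simp only [(key _).2.1, (key _).2.2, Finset.sum_add_distrib, Finset.sum_neg_distrib, e0]
    ring

/-- the conditions at the zeros of `1 - f` are satisfied -/
lemma ref_false (hd : DOk d kap nus) {D D' : Fin 10 → ℤ} (H : Shp kap nus D' D) :
    ref d (tl D) (tl D') = false := by
  unfold ref
  rw [Bool.or_eq_false_iff, List.any_eq_false, List.any_eq_false]
  constructor
  · intro s _ hs
    rw [List.any_eq_true] at hs
    obtain ⟨r, hr, h1⟩ := hs
    rw [tl_getD] at hr
    by_cases h2 : 1 ≤ D' s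
    · have h3 := rw_zero hd H (s := s) (a := (D' s).toNat) (by omega) h2 r hr
      rw [h3] at h1
      simp at h1
    · have h3 : (D' s).toNat - 1 = 0 := by omega
      rw [h3, List.take_zero] at hr
      exact absurd hr (by simp)
  · intro s _ hs
    rw [List.any_eq_true] at hs
    obtain ⟨s', -, h1⟩ := hs
    rw [tl_getD, tl_getD, Bool.and_eq_true, Bool.and_eq_true, decide_eq_true_eq,
      decide_eq_true_eq, List.any_eq_true] at h1
    obtain ⟨h1, h2, r, hr, h3⟩ := h1
    have h4 := vw_zero hd H h1 h2 r hr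
    rw [h4] at h3
    simp at h3

/-- **a fibre with solutions** -/
theorem okE_sound (hd : DOk d kap nus) {D D' : Fin 10 → ℤ} (H : Shp kap nus D D')
    (H' : Shp kap nus D' D) {c : Cfg} (hc : okE d c = true)
    (hp : ∀ p ∈ c.pts, 1 ≤ p.2 ∧ (p.2 : ℤ) = D p.1) (h0 : 1 ≤ D 0)
    (hA : ∀ s, 1 ≤ D s → ∃ p ∈ c.pts, p.1 = s) : lk d 10 (tl D) (tl D') = true := by
  unfold okE at hc
  rw [Bool.and_eq_true, Bool.and_eq_true, beq_iff_eq] at hc
  obtain ⟨hl, hv, he⟩ := hc
  have hz : ∀ p ∈ c.pts, (tl D').getD p.1.val 0 = 0 := by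
    intro p hp'
    rw [tl_getD]
    have h1 := hp p hp'
    rcases H.alt p.1 with h | h | h | h <;> omega
  have hr := rows_zero hd H (fun p hp' => ⟨(hp p hp').1, (hp p hp').2.le⟩) h0
  have L := lev_of hz hr c.lv hv
  have hf := fz_eq hp hA
  obtain ⟨p1, p2⟩ := parts H
  rw [← hf] at p1 p2
  have key := enS_all he (w := tl D') (by unfold lvE; rw [List.length_map, hl]; rfl) L p1 p2
  have hm := mkD_tl (fun s => if 1 ≤ D s then D s else 0) D D' (by
    intro s
    show (if D' s < 0 then D' s else if 1 ≤ D s then D s else 0) = D s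
    rcases H.alt s with ⟨h1, h2⟩ | ⟨h1, h2⟩ | ⟨h1, h2⟩ | ⟨h1, h2⟩
    · rw [if_neg (by omega), if_neg (by omega), h1]
    · rw [if_neg (by omega), if_pos h1]
    · rw [if_neg (by omega), if_neg (by omega), h1]
    · rw [if_pos (by omega), h1])
  unfold chkE at key
  rw [hf, hm, wtc_of H.w1, wtc_of H.w0, ref_false hd H'] at key
  simpa using key

/-- **a fibre without solutions** -/
theorem okZ_sound (hd : DOk d kap nus) {D D' : Fin 10 → ℤ} (H : Shp kap nus D D')
    (hne : ∃ s, D' s ≠ 0) {c : Cfg} (hc : okZ d c = true)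
    (hp : ∀ p ∈ c.pts, 1 ≤ p.2 ∧ (p.2 : ℤ) ≤ D p.1) (h0 : 1 ≤ D 0) : False := by
  unfold okZ at hc
  rw [Bool.and_eq_true, Bool.and_eq_true, beq_iff_eq] at hc
  obtain ⟨hl, hv, he⟩ := hc
  have hz : ∀ p ∈ c.pts, (tl D').getD p.1.val 0 = 0 := by
    intro p hp'
    rw [tl_getD]
    have h1 := hp p hp'
    rcases H.alt p.1 with h | h | h | h <;> omega
  have hr := rows_zero hd H hp h0
  have L := lev_of hz hr c.lv hv
  have len : (c.lv.map (fun b => (b.1, b.2.map Prod.fst))).length = 10 := by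
    rw [List.length_map, hl]
  have key := zero_of_lev (tl D') _ (by rw [len]; rfl) L he (by
    intro x hx
    rw [len] at hx
    exact absurd hx (by simp [tl]))
  obtain ⟨s, hs⟩ := hne
  apply hs
  apply key
  fin_cases s <;> simp [tl]

lemma mem_prods (k : ℕ) : ∀ l : List ℕ, l.length = k → (∀ x ∈ l, 1 ≤ x ∧ x ≤ 11) →
    l ∈ prods k := by
  induction k with
  | zero =>
    intro l hl _
    rw [List.length_eq_zero_iff] at hl
    subst hl
    simp [prods]
  | succ k ih =>
    intro l hl h
    cases l with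
    | nil => simp at hl
    | cons a l =>
      rw [List.length_cons] at hl
      unfold prods
      rw [List.mem_flatMap]
      refine ⟨a, ?_, ?_⟩
      · obtain ⟨h1, h2⟩ := h a (by simp)
        simp only [List.mem_cons, List.not_mem_nil, or_false]
        omega
      · rw [List.mem_map]
        exact ⟨l, ih l (by omega) (fun x hx => h x (by simp [hx])), rfl⟩

lemma leP_spec {l m : List (Fin 10 × ℕ)} (h : leP l m = true) :
    ∀ p ∈ l, ∃ q ∈ m, p.1 = q.1 ∧ p.2 ≤ q.2 := by
  induction l generalizing m with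
  | nil => intro p hp; exact absurd hp (by simp)
  | cons a l ih =>
    cases m with
    | nil => unfold leP at h; exact absurd h (by simp)
    | cons b m =>
      unfold leP at h
      rw [Bool.and_eq_true, Bool.and_eq_true, beq_iff_eq, decide_eq_true_eq] at h
      obtain ⟨h1, h2, h3⟩ := h
      intro p hp
      rw [List.mem_cons] at hp
      rcases hp with rfl | hp
      · exact ⟨b, by simp, h1, h2⟩
      · obtain ⟨q, hq, h4⟩ := ih h3 p hp
        exact ⟨q, by simp [hq], h4⟩

/-- **one type of fibre** -/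
theorem typ_sound (hd : DOk d kap nus) {T : List (Fin 10)} {E Z : List Cfg} (hT : Typ d T E Z)
    {D D' : Fin 10 → ℤ} (H : Shp kap nus D D') (H' : Shp kap nus D' D) (hne : ∃ s, D' s ≠ 0)
    (h0 : 1 ≤ D 0) (hA : ∀ s, 1 ≤ D s ↔ s ∈ T) :
    lk d 10 (tl D) (tl D') = true := by
  set a : List ℕ := T.map (fun s => (D s).toNat) with ha
  have hmem : a ∈ prods T.length := by
    refine mem_prods _ a (by rw [ha, List.length_map]) ?_
    intro x hx
    rw [ha, List.mem_map] at hx
    obtain ⟨s, hs, rfl⟩ := hx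
    have h1 := (hA s).mpr hs
    have h2 := (H.van s h1).1
    omega
  have hc := List.all_eq_true.mp hT.cov a hmem
  have hz : T.zip a = T.map (fun s => (s, (D s).toNat)) := by
    rw [ha]
    have : ∀ T : List (Fin 10), T.zip (T.map (fun s => (D s).toNat)) =
        T.map (fun s => (s, (D s).toNat)) := by
      intro T
      induction T with
      | nil => rfl
      | cons t T ih => rw [List.map_cons, List.map_cons, List.zip_cons_cons, ih]
    exact this T
  rw [hz] at hc
  unfold cov at hc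
  rw [Bool.or_eq_true, List.any_eq_true, List.any_eq_true] at hc
  rcases hc with ⟨c, hc, he⟩ | ⟨c, hc, he⟩
  · rw [beq_iff_eq] at he
    refine okE_sound hd H H' (List.all_eq_true.mp hT.okE c hc) ?_ h0 ?_
    · intro p hp
      rw [he, List.mem_map] at hp
      obtain ⟨s, hs, rfl⟩ := hp
      have h1 := (hA s).mpr hs
      constructor
      · show 1 ≤ (D s).toNat; omega
      · show (((D s).toNat : ℕ) : ℤ) = D s; omega
    · intro s hs
      rw [he]
      exact ⟨(s, (D s).toNat), List.mem_map.mpr ⟨s, (hA s).mp hs, rfl⟩, rfl⟩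
  · exfalso
    refine okZ_sound hd H hne (List.all_eq_true.mp hT.okZ c hc) ?_ h0
    intro p hp
    obtain ⟨q, hq, h1, h2⟩ := leP_spec he p hp
    rw [List.mem_map] at hq
    obtain ⟨s, hs, rfl⟩ := hq
    have h3 := (hA s).mpr hs
    have h4 := List.all_eq_true.mp (List.all_eq_true.mp hT.pos c hc) p hp
    rw [decide_eq_true_eq] at h4
    refine ⟨h4, ?_⟩
    simp only at h1 h2
    rw [h1]
    omega

end

/-! ### all types -/

/-- the types of fibres with at most three points -/
def TT : List (List (Fin 10)) := [[0], [0, 1], [0, 2], [0, 3], [0, 4], [0, 5], [0, 1, 2],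
  [0, 1, 3], [0, 1, 4], [0, 1, 5], [0, 1, 6], [0, 1, 7], [0, 1, 8], [0, 2, 4], [0, 2, 5],
  [0, 2, 6], [0, 2, 7], [0, 3, 6]]

lemma zero_mem : ∀ T ∈ TT, (0 : Fin 10) ∈ T := by decide +kernel

lemma small : ∀ b c : Fin 10, ∃ T ∈ TT, ∃ σ : Fin 10,
    ∀ s, (s + σ = 0 ∨ s + σ = b ∨ s + σ = c) ↔ s ∈ T := by decide +kernel

lemma rot_tl (D : Fin 10 → ℤ) : rot (tl D) = tl (fun i => D (i + 1)) := rfl

lemma rot_iter (j : ℕ) : ∀ D : Fin 10 → ℤ,
    rot^[j] (tl D) = tl (fun i => D (i + j • (1 : Fin 10))) := by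
  induction j with
  | zero => intro D; simp
  | succ j ih =>
    intro D
    rw [Function.iterate_succ_apply, rot_tl, ih]
    congr 1
    funext i
    congr 1
    rw [succ_nsmul, add_assoc]

lemma val_smul : ∀ s : Fin 10, s.val • (1 : Fin 10) = s := by decide

/-- one of three disjoint sets of residues has at most three elements -/
lemma small3 (P Q R : Fin 10 → Prop) (hP : ∃ s, P s) (hQ : ∃ s, Q s) (hR : ∃ s, R s)
    (h1 : ∀ s, ¬ (P s ∧ Q s)) (h2 : ∀ s, ¬ (P s ∧ R s)) (h3 : ∀ s, ¬ (Q s ∧ R s)) :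
    (∃ a b c, P a ∧ P b ∧ P c ∧ ∀ s, P s → s = a ∨ s = b ∨ s = c) ∨
    (∃ a b c, Q a ∧ Q b ∧ Q c ∧ ∀ s, Q s → s = a ∨ s = b ∨ s = c) ∨
    ∃ a b c, R a ∧ R b ∧ R c ∧ ∀ s, R s → s = a ∨ s = b ∨ s = c := by
  classical
  have three : ∀ P : Fin 10 → Prop, (∃ s, P s) → (Finset.univ.filter P).card ≤ 3 →
      ∃ a b c, P a ∧ P b ∧ P c ∧ ∀ s, P s → s = a ∨ s = b ∨ s = c := by
    intro P hP hc
    obtain ⟨a, ha⟩ := hP
    by_cases hb : ∃ b, P b ∧ b ≠ a
    · obtain ⟨b, hb, hba⟩ := hb
      by_cases hd : ∃ c, P c ∧ c ≠ a ∧ c ≠ b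
      · obtain ⟨c, hc', hca, hcb⟩ := hd
        refine ⟨a, b, c, ha, hb, hc', fun s hs => ?_⟩
        by_contra hne
        push Not at hne
        have h4 : ({a, b, c, s} : Finset (Fin 10)) ⊆ Finset.univ.filter P := by
          intro z hz
          simp only [Finset.mem_insert, Finset.mem_singleton] at hz
          rcases hz with rfl | rfl | rfl | rfl <;> simp [*]
        have h5 := Finset.card_le_card h4
        have h6 : ({a, b, c, s} : Finset (Fin 10)).card = 4 := by
          rw [Finset.card_insert_of_notMem, Finset.card_eq_three.mpr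
            ⟨b, c, s, Ne.symm hcb, Ne.symm hne.2.1, Ne.symm hne.2.2, rfl⟩]
          simp only [Finset.mem_insert, Finset.mem_singleton, not_or]
          exact ⟨Ne.symm hba, Ne.symm hca, Ne.symm hne.1⟩
        omega
      · push Not at hd
        refine ⟨a, b, b, ha, hb, hb, fun s hs => ?_⟩
        by_cases hsa : s = a
        · exact Or.inl hsa
        · exact Or.inr (Or.inl (hd s hs hsa))
    · push Not at hb
      exact ⟨a, a, a, ha, ha, ha, fun s hs => Or.inl (hb s hs)⟩
  have four : ∀ P : Fin 10 → Prop, (∃ s, P s) →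
      (¬ ∃ a b c, P a ∧ P b ∧ P c ∧ ∀ s, P s → s = a ∨ s = b ∨ s = c) →
      4 ≤ (Finset.univ.filter P).card := by
    intro P hP hn
    by_contra hc
    exact hn (three P hP (by omega))
  by_contra hcon
  rw [not_or, not_or] at hcon
  have d1 := four P hP hcon.1
  have d2 := four Q hQ hcon.2.1
  have d3 := four R hR hcon.2.2
  have e1 : Disjoint (Finset.univ.filter P) (Finset.univ.filter Q) := by
    rw [Finset.disjoint_filter]; exact fun s _ hs hs' => h1 s ⟨hs, hs'⟩
  have e2 : Disjoint (Finset.univ.filter P ∪ Finset.univ.filter Q) (Finset.univ.filter R) := by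
    rw [Finset.disjoint_union_left, Finset.disjoint_filter, Finset.disjoint_filter]
    exact ⟨fun s _ hs hs' => h2 s ⟨hs, hs'⟩, fun s _ hs hs' => h3 s ⟨hs, hs'⟩⟩
  have e3 := Finset.card_le_univ ((Finset.univ.filter P ∪ Finset.univ.filter Q) ∪
    Finset.univ.filter R)
  rw [Finset.card_union_of_disjoint e2, Finset.card_union_of_disjoint e1] at e3
  simp only [Fintype.card_fin] at e3
  omega

lemma ex_pos {D : Fin 10 → ℤ} (hs : ∑ s, D s = 0) (h : ∃ s, D s ≠ 0) : ∃ s, 1 ≤ D s := by
  by_contra hc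
  push Not at hc
  obtain ⟨s, hs'⟩ := h
  have h2 : ∑ s, D s < 0 := by
    refine Finset.sum_neg' (fun i _ => by have := hc i; omega) ⟨s, Finset.mem_univ _, ?_⟩
    have := hc s
    omega
  omega

lemma ex_neg {D : Fin 10 → ℤ} (hs : ∑ s, D s = 0) (h : ∃ s, D s ≠ 0) : ∃ s, D s ≤ -1 := by
  obtain ⟨s, h2⟩ := ex_pos (D := fun s => - D s) (by rw [Finset.sum_neg_distrib, hs, neg_zero])
    (by obtain ⟨s, hs⟩ := h; exact ⟨s, neg_ne_zero.mpr hs⟩)
  exact ⟨s, by omega⟩

/-- the properties of the set of the pairs of divisors of the solutions -/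
structure Sym (kap : Fin 11 → Fin 10 → ℤ) (nus : List (Fin 10 → ℤ))
    (Q : (Fin 10 → ℤ) → (Fin 10 → ℤ) → Prop) : Prop where
  shp : ∀ {D D'}, Q D D' → Shp kap nus D D'
  sh : ∀ {D D'}, Q D D' → ∀ τ : Fin 10, Q (fun i => D (i + τ)) (fun i => D' (i + τ))
  sw : ∀ {D D'}, Q D D' → Q D' D
  iv : ∀ {D D'}, Q D D' → Q (fun i => - D i) (fun i => D' i - D i)

section

variable {d : Dt} {kap : Fin 11 → Fin 10 → ℤ} {nus : List (Fin 10 → ℤ)}
  {Q : (Fin 10 → ℤ) → (Fin 10 → ℤ) → Prop}

lemma look3 (hd : DOk d kap nus) (hT : ∀ T ∈ TT, ∃ E Z, Typ d T E Z) (hQ : Sym kap nus Q)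
    {D D' : Fin 10 → ℤ} (h : Q D D') (hne : ∃ s, D' s ≠ 0) {a b c : Fin 10} (ha : 1 ≤ D a)
    (hb : 1 ≤ D b) (hc : 1 ≤ D c) (hA : ∀ s, 1 ≤ D s → s = a ∨ s = b ∨ s = c) :
    InT d (tl D) (tl D') := by
  obtain ⟨T, hT', σ, hσ⟩ := small (b - a) (c - a)
  obtain ⟨E, Z, typ⟩ := hT T hT'
  set τ : Fin 10 := σ + a with hτ
  have q1 := hQ.sh h τ
  have kA : ∀ s, 1 ≤ D (s + τ) ↔ s ∈ T := by
    intro s
    rw [← hσ s]
    have e1 : s + τ = a ↔ s + σ = 0 := by
      rw [hτ, ← add_assoc, add_eq_right]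
    have e2 : s + τ = b ↔ s + σ = b - a := by
      rw [hτ, ← add_assoc, eq_sub_iff_add_eq]
    have e3 : s + τ = c ↔ s + σ = c - a := by
      rw [hτ, ← add_assoc, eq_sub_iff_add_eq]
    rw [← e1, ← e2, ← e3]
    constructor
    · exact hA _
    · rintro (h2 | h2 | h2)
      · rw [h2]; exact ha
      · rw [h2]; exact hb
      · rw [h2]; exact hc
  have key := typ_sound hd typ (hQ.shp q1) (hQ.shp (hQ.sw q1)) (by
    obtain ⟨s, hs⟩ := hne
    refine ⟨s - τ, ?_⟩
    show D' (s - τ + τ) ≠ 0
    rw [sub_add_cancel]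
    exact hs) ((kA 0).mpr (zero_mem T hT')) kA
  have k2 := lk_spec 10 key (-τ).val (-τ).isLt
  rw [rot_iter, rot_iter, val_smul] at k2
  simp only [neg_add_cancel_right] at k2
  exact look_spec hd.dc_ok k2

/-- **the enumeration** -/
theorem main (hd : DOk d kap nus) (hT : ∀ T ∈ TT, ∃ E Z, Typ d T E Z) (hQ : Sym kap nus Q)
    {D D' : Fin 10 → ℤ} (h : Q D D') (hD : ∃ s, D s ≠ 0) (hD' : ∃ s, D' s ≠ 0) :
    InT d (tl D) (tl D') ∨ InT d (tl D') (tl D) ∨
      InT d (tl fun i => - D i) (tl fun i => D' i - D i) := by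
  have H := hQ.shp h
  have B := H.alt
  obtain ⟨a, b, c, ha, hb, hc, hab⟩ | ⟨a, b, c, ha, hb, hc, hab⟩ |
      ⟨a, b, c, ha, hb, hc, hab⟩ :=
    small3 (fun s => 1 ≤ D s) (fun s => 1 ≤ D' s) (fun s => D s ≤ -1)
      (ex_pos H.s0 hD) (ex_pos H.s1 hD') (ex_neg H.s0 hD)
      (fun s hs => by have := B s; have := hs.1; have := hs.2; omega)
      (fun s hs => by have := hs.1; have := hs.2; omega)
      (fun s hs => by have := B s; have := hs.1; have := hs.2; omega)
  · exact Or.inl (look3 hd hT hQ h hD' ha hb hc hab)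
  · exact Or.inr (Or.inl (look3 hd hT hQ (hQ.sw h) hD ha hb hc hab))
  · right; right
    refine look3 hd hT hQ (hQ.iv h) ?_ (a := a) (b := b) (c := c) (by omega) (by omega)
      (by omega) (fun s hs => hab s (by omega))
    obtain ⟨s, hs⟩ := ex_pos H.s0 hD
    refine ⟨s, ?_⟩
    have := B s
    show D' s - D s ≠ 0
    omega

end

end Pool.Agent.X10
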