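import Pool.Agent.Lib_helper60.K9.A
import Pool.Agent.Lib_helper60.X10.G

/-!
# A point of order ten: the space of the functions with a pole of order at most eleven
-/

set_option autoImplicit false
set_option linter.unusedSectionVars false
set_option linter.unusedSimpArgs false
set_option linter.unusedVariables false

namespace Pool.Agent.X10

open Polynomial WeierstrassCurve.Affine WithZero
open Pool.Agent.TN Pool.Agent.K7

section General

variable {k : Type*} [Field k] {W : WeierstrassCurve.Affine k}

/-- the element with the coefficients `n` in the basis `1, x, y, x², xy, .., x⁵, x⁴y` -/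
noncomputable def NV (n : Fin 11 → k) : K W :=
  K9.N9 (n 0) (n 1) (n 2) (n 3) (n 4) (n 5) (n 6) (n 7) (n 8) + cK (n 9) * xK ^ 5 +
    cK (n 10) * (xK ^ 4 * yK)

lemma NV_basis (n : Fin 11 → k) : (NV n : K W) =
    inc ((C (n 9) * X ^ 5 + (C (n 7) * X ^ 4 + (C (n 5) * X ^ 3 + C (n 3) * X ^ 2 + C (n 1) * X +
      C (n 0))) : k[X]) • (1 : W.CoordinateRing) +
      (C (n 10) * X ^ 4 + (C (n 8) * X ^ 3 + C (n 6) * X ^ 2 + C (n 4) * X + C (n 2)) : k[X]) •
        CoordinateRing.mk W X) := by
  rw [inc_basis]
  simp only [eval₂_add, eval₂_mul, eval₂_C, eval₂_X, eval₂_pow]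
  unfold NV K9.N9 N7
  ring

lemma w11 {n : Fin 11 → k} (h : n 10 ≠ 0) : v (W := W) (NV n) = exp 11 := by
  rw [NV_basis]
  refine v_odd (d := 4) ?_ ?_
  · have h1 : (C (n 8) * X ^ 3 + C (n 6) * X ^ 2 + C (n 4) * X + C (n 2) : k[X]).degree <
        (C (n 10) * X ^ 4 : k[X]).degree := by
      rw [degree_C_mul_X_pow 4 h]
      exact degree_cubic_le.trans_lt (by norm_num)
    rw [degree_add_eq_left_of_degree_lt h1, degree_C_mul_X_pow 4 h]
  · have h1 : (C (n 9) * X ^ 5 + (C (n 7) * X ^ 4 + (C (n 5) * X ^ 3 + C (n 3) * X ^ 2 +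
        C (n 1) * X + C (n 0))) : k[X]).degree ≤ 5 := by
      refine (degree_add_le _ _).trans (max_le (degree_C_mul_X_pow_le 5 _) ?_)
      refine (degree_add_le _ _).trans (max_le ?_ ?_)
      · exact (degree_C_mul_X_pow_le 4 _).trans (by norm_num)
      · exact degree_cubic_le.trans (by norm_num)
    refine (nsmul_le_nsmul_right h1 2).trans ?_
    norm_num

lemma w10 {n : Fin 11 → k} (h : n 9 ≠ 0) (h' : n 10 = 0) : v (W := W) (NV n) = exp 10 := by
  rw [NV_basis, h']
  simp only [C_0, zero_mul, zero_add]
  refine v_even (d := 5) ?_ ?_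
  · have h1 : (C (n 7) * X ^ 4 + (C (n 5) * X ^ 3 + C (n 3) * X ^ 2 + C (n 1) * X + C (n 0)) :
        k[X]).degree < (C (n 9) * X ^ 5 : k[X]).degree := by
      rw [degree_C_mul_X_pow 5 h]
      refine (degree_add_le _ _).trans_lt (max_lt ?_ ?_)
      · exact (degree_C_mul_X_pow_le 4 _).trans_lt (by norm_num)
      · exact degree_cubic_le.trans_lt (by norm_num)
    rw [degree_add_eq_left_of_degree_lt h1, degree_C_mul_X_pow 5 h]
  · refine (add_le_add_left (nsmul_le_nsmul_right degree_cubic_le 2) 3).trans ?_
    norm_num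

lemma NV_add (n m : Fin 11 → k) : (NV (n + m) : K W) = NV n + NV m := by
  unfold NV K9.N9 N7; simp only [Pi.add_apply, map_add]; ring

lemma NV_smul (a : k) (n : Fin 11 → k) : (NV (a • n) : K W) = cK a * NV n := by
  unfold NV K9.N9 N7; simp only [Pi.smul_apply, smul_eq_mul, map_mul]; ring

lemma NV_zero : (NV (0 : Fin 11 → k) : K W) = 0 := by
  unfold NV K9.N9 N7; simp

lemma NV_sub (n m : Fin 11 → k) : (NV (n - m) : K W) = NV n - NV m := by
  unfold NV K9.N9 N7; simp only [Pi.sub_apply, map_sub]; ring

lemma NV_sum {ι : Type*} (s : Finset ι) (a : ι → k) (n : ι → Fin 11 → k) :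
    (NV (∑ i ∈ s, a i • n i) : K W) = ∑ i ∈ s, cK (a i) * NV (n i) := by
  classical
  induction s using Finset.induction_on with
  | empty => simpa using NV_zero
  | insert i s hi ih => rw [Finset.sum_insert hi, Finset.sum_insert hi, NV_add, NV_smul, ih]

lemma NV_low {r : Fin 11 → k} (h9 : r 9 = 0) (h10 : r 10 = 0) :
    (NV r : K W) = K9.NV (fun i : Fin 9 => r (Fin.castLE (by norm_num) i)) := by
  unfold NV K9.NV
  rw [h9, h10]
  simp only [map_zero, zero_mul, add_zero]
  rfl

/-- the leading term of an element of the space -/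
lemma v_NV (r : Fin 11 → k) : r = 0 ∨ ∃ M : Fin 11, r M ≠ 0 ∧ (∀ m, M < m → r m = 0) ∧
    v (W := W) (NV r) = exp (ordm M) := by
  by_cases h10 : r 10 = 0
  · by_cases h9 : r 9 = 0
    · rw [NV_low h9 h10]
      rcases K9.v_NV (W := W) (fun i : Fin 9 => r (Fin.castLE (by norm_num) i)) with h | ⟨M, h1, h2, h3⟩
      · left
        funext j
        by_cases hj : j.val < 9
        · exact congrFun h ⟨j.val, hj⟩
        · have h4 : j.val = 9 ∨ j.val = 10 := by omega
          rcases h4 with h4 | h4
          · have : j = 9 := Fin.ext h4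
            rw [this]; exact h9
          · have : j = 10 := Fin.ext h4
            rw [this]; exact h10
      · right
        refine ⟨Fin.castLE (by norm_num) M, h1, ?_, ?_⟩
        · intro m hm
          by_cases hj : m.val < 9
          · exact h2 ⟨m.val, hj⟩ hm
          · have h4 : m.val = 9 ∨ m.val = 10 := by omega
            rcases h4 with h4 | h4
            · have : m = 9 := Fin.ext h4
              rw [this]; exact h9
            · have : m = 10 := Fin.ext h4
              rw [this]; exact h10
        · rw [h3]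
          congr 1
          fin_cases M <;> rfl
    · right
      refine ⟨9, h9, ?_, w10 h9 h10⟩
      intro m hm
      have h4 : m = 10 := by
        apply Fin.ext
        have h5 : (9 : ℕ) < m.val := hm
        have h6 := m.isLt
        show m.val = 10
        omega
      rw [h4]; exact h10
  · right
    refine ⟨10, h10, ?_, w11 h10⟩
    intro m hm
    exfalso
    have h5 : (10 : ℕ) < m.val := hm
    have h6 := m.isLt
    omega

lemma NV_eq_zero {n : Fin 11 → k} (h : (NV n : K W) = 0) : n = 0 := by
  rcases v_NV (W := W) n with h1 | ⟨M, -, -, h1⟩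
  · exact h1
  · exact absurd h (ne_of_v h1)

end General

end Pool.Agent.X10
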