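import Pool.Agent.Lib_helper60.K9.L

/-!
# Enumeration of integral vectors satisfying linear conditions: solving for the entries
-/

set_option autoImplicit false

namespace Pool.Agent.X10

open Pool.Agent.K9

/-- evaluate a natural number -/
def frc : ℕ → (ℕ → Bool) → Bool
  | 0, f => f 0
  | m + 1, f => f (Nat.succ m)

lemma frc_eq (n : ℕ) (f : ℕ → Bool) : frc n f = f n := by
  cases n <;> rfl

/-- the solution of `a x + s = 0` -/
def sol (a : ℕ) (p q : ℕ) (f g : ℕ → Bool) : ℤ → Bool
  | Int.ofNat s => !(Nat.beq (s % a) 0) || (match s / a with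
    | 0 => f 0
    | m + 1 => !(Nat.ble (Nat.succ m) q) || g m)
  | Int.negSucc s => !(Nat.beq ((Nat.succ s) % a) 0) || (match (Nat.succ s) / a with
    | 0 => true
    | m + 1 => !(Nat.ble (Nat.succ m) p) || f (Nat.succ m))

lemma sol_nonneg {a p q : ℕ} {f g : ℕ → Bool} {s : ℤ} (h : sol a p q f g s = true) (ha : a ≠ 0)
    {m : ℕ} (hm : (a : ℤ) * m + s = 0) (hp : m ≤ p) : f m = true := by
  have ha' : 0 < a := Nat.pos_of_ne_zero ha
  cases s with
  | ofNat s =>
    have h1 : (a : ℤ) * m + (s : ℤ) = 0 := hm
    have h2 : a * m + s = 0 := by exact_mod_cast h1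
    have h3 : s = 0 := by omega
    have h4 : m = 0 := by
      have : a * m = 0 := by omega
      rcases Nat.mul_eq_zero.mp this with h5 | h5
      · exact absurd h5 ha
      · exact h5
    subst h3 h4
    unfold sol at h
    simp only [Nat.zero_mod, Nat.zero_div] at h
    simpa using h
  | negSucc s =>
    have h1 : (a : ℤ) * m = ((s + 1 : ℕ) : ℤ) := by
      rw [Int.negSucc_eq] at hm
      push_cast
      linarith
    have h2 : a * m = s + 1 := by exact_mod_cast h1
    unfold sol at h
    simp only [Nat.succ_eq_add_one] at h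
    rw [← h2, Nat.mul_mod_right, Nat.mul_div_cancel_left m ha'] at h
    have h0 : m ≠ 0 := by
      rintro rfl
      simp at h2
    obtain ⟨n, rfl⟩ := Nat.exists_eq_succ_of_ne_zero h0
    have h5 : Nat.ble (n + 1) p = true := Nat.ble_eq.mpr hp
    simpa [h5] using h

lemma sol_neg {a p q : ℕ} {f g : ℕ → Bool} {s : ℤ} (h : sol a p q f g s = true) (ha : a ≠ 0)
    {m : ℕ} (hm : (a : ℤ) * Int.negSucc m + s = 0) (hq : m + 1 ≤ q) : g m = true := by
  have ha' : 0 < a := Nat.pos_of_ne_zero ha
  have h0 : s = ((a * (m + 1) : ℕ) : ℤ) := by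
    rw [Int.negSucc_eq] at hm
    push_cast
    linarith
  subst h0
  have h1 : sol a p q f g ((a * (m + 1) : ℕ) : ℤ) = (!(Nat.beq ((a * (m + 1)) % a) 0) ||
      (match (a * (m + 1)) / a with
        | 0 => f 0
        | m + 1 => !(Nat.ble (Nat.succ m) q) || g m)) := rfl
  rw [h1, Nat.mul_mod_right, Nat.mul_div_cancel_left _ ha'] at h
  have h5 : Nat.ble (m + 1) q = true := Nat.ble_eq.mpr hq
  simpa [h5] using h

/-- one entry -/
def stpS (p q : ℕ) (f g : ℕ → Bool) (l : List ℤ) : List (List ℤ) → Bool
  | [(Int.ofNat a) :: r] => !(Nat.beq a 0) && sol a p q f g (dot r l)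
  | rs => (List.range (p + 1)).all (fun v => !(okl rs (Int.ofNat v :: l)) || f v) &&
      (List.range q).all (fun v => !(okl rs (Int.negSucc v :: l)) || g v)

lemma stpS_spec {p q : ℕ} {f g : ℕ → Bool} {l : List ℤ} {rs : List (List ℤ)}
    (h : stpS p q f g l rs = true) :
    (∀ m : ℕ, m ≤ p → okl rs (Int.ofNat m :: l) = true → f m = true) ∧
    (∀ m : ℕ, m + 1 ≤ q → okl rs (Int.negSucc m :: l) = true → g m = true) := by
  unfold stpS at h
  split at h
  · rename_i a r
    rw [Bool.and_eq_true] at h
    obtain ⟨h3, h4⟩ := h
    have ha : a ≠ 0 := by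
      rintro rfl
      simp at h3
    constructor
    · intro m hm ho
      have h5 : (a : ℤ) * (m : ℤ) + dot r l = 0 := by
        unfold okl at ho
        simp only [List.all_cons, List.all_nil, Bool.and_true, beq_iff_eq] at ho
        exact ho
      exact sol_nonneg h4 ha h5 hm
    · intro m hm ho
      have h5 : (a : ℤ) * (Int.negSucc m) + dot r l = 0 := by
        unfold okl at ho
        simp only [List.all_cons, List.all_nil, Bool.and_true, beq_iff_eq] at ho
        exact ho
      exact sol_neg h4 ha h5 hm
  · rw [Bool.and_eq_true, List.all_eq_true, List.all_eq_true] at h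
    obtain ⟨h3, h4⟩ := h
    constructor
    · intro m hm ho
      have h5 := h3 m (List.mem_range.mpr (by omega))
      rw [ho] at h5
      simpa using h5
    · intro m hm ho
      have h5 := h4 m (List.mem_range.mpr (by omega))
      rw [ho] at h5
      simpa using h5

/-- vectors with given positive and negative part -/
def enS (chk : List ℤ → Bool) : List (Bool × List (List ℤ)) → ℕ → ℕ → List ℤ → Bool
  | [], p, q, l => !(Nat.beq p 0 && Nat.beq q 0) || chk l
  | (true, rs) :: ms, p, q, l => !(okl rs (0 :: l)) || enS chk ms p q (0 :: l)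
  | (false, rs) :: ms, p, q, l =>
    stpS p q (fun m => frc (p - m) (fun p' => enS chk ms p' q (Int.ofNat m :: l)))
      (fun m => frc (q - (m + 1)) (fun q' => enS chk ms p q' (Int.negSucc m :: l))) l rs

/-- one step -/
theorem enS_step {chk : List ℤ → Bool} {rs : List (List ℤ)} {ms : List (Bool × List (List ℤ))}
    {p q : ℕ} {l : List ℤ} (h : enS chk ((false, rs) :: ms) p q l = true) :
    (∀ m : ℕ, m ≤ p → okl rs (Int.ofNat m :: l) = true →
      enS chk ms (p - m) q (Int.ofNat m :: l) = true) ∧
    (∀ m : ℕ, m + 1 ≤ q → okl rs (Int.negSucc m :: l) = true →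
      enS chk ms p (q - (m + 1)) (Int.negSucc m :: l) = true) := by
  unfold enS at h
  obtain ⟨h1, h2⟩ := stpS_spec h
  constructor
  · intro m hm ho
    have := h1 m hm ho
    rwa [frc_eq] at this
  · intro m hm ho
    have := h2 m hm ho
    rwa [frc_eq] at this

theorem enS_spec (chk : List ℤ → Bool) (ms : List (Bool × List (List ℤ))) :
    ∀ (p q : ℕ) (l : List ℤ), enS chk ms p q l = true → ∀ v : List ℤ,
      Good ms v l → pos v = p → neg v = q → chk (v.reverse ++ l) = true := by
  induction ms with
  | nil =>
    intro p q l h v hv hp hq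
    cases v with
    | cons x v => exact absurd hv (by simp [Good])
    | nil =>
      unfold enS at h
      have h1 : p = 0 := hp.symm
      have h2 : q = 0 := hq.symm
      rw [h1, h2] at h
      simpa using h
  | cons b ms ih =>
    obtain ⟨b, rs⟩ := b
    intro p q l h v hv hp hq
    cases v with
    | nil => exact absurd hv (by simp [Good])
    | cons x v =>
      obtain ⟨hb, hr, hv⟩ := hv
      rw [List.reverse_cons, List.append_assoc, List.singleton_append]
      cases b with
      | true =>
        have hx := hb rfl
        subst hx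
        unfold enS at h
        rw [hr] at h
        simp only [Bool.not_true, Bool.false_or] at h
        refine ih p q _ h v hv ?_ ?_
        · rw [← hp]; simp [pos]
        · rw [← hq]; simp [neg]
      | false =>
        obtain ⟨h1, h2⟩ := enS_step h
        rcases x with m | m
        · have hp' : m + pos v = p := by rw [← hp]; simp [pos]
          have hq' : neg v = q := by rw [← hq]; simp [neg]
          exact ih (p - m) q _ (h1 m (by omega) hr) v hv (by omega) hq'
        · have hp' : pos v = p := by rw [← hp]; simp [pos]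
          have hq' : m + 1 + neg v = q := by
            rw [← hq]
            have : (-(Int.negSucc m)).toNat = m + 1 := by rw [Int.neg_negSucc]; rfl
            simp only [neg, List.map_cons, List.sum_cons, this]
          exact ih p (q - (m + 1)) _ (h2 m (by omega) hr) v hv hp' (by omega)

/-- **enumeration** -/
theorem enS_all {chk : List ℤ → Bool} {ms : List (Bool × List (List ℤ))} {n : ℕ} {w : List ℤ}
    (h : enS chk ms n n [] = true) (hl : ms.length = w.length) (hw : Lev w ms)
    (hp : pos w = n) (hn : neg w = n) : chk w = true := by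
  have h1 := good_of_lev w ms hl.le hw
  rw [hl, List.take_length, List.drop_length] at h1
  have p1 : pos w.reverse = n := by
    rw [← hp]; unfold pos; rw [List.map_reverse, List.sum_reverse]
  have p2 : neg w.reverse = n := by
    rw [← hn]; unfold neg; rw [List.map_reverse, List.sum_reverse]
  have h2 := enS_spec chk ms n n [] h w.reverse h1 p1 p2
  simpa using h2

end Pool.Agent.X10
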